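import Mathlib

namespace Pool.Agent.H.MP_d6d0a6_lc

open List

theorem chain {W : Type} (c : ℕ → List W) (h1 : ∀ n, c n <+: c (n + 1)) (h2 : ∀ n, n ≤ (c n).length) :
    ∃ t : ℕ → W, Set.range t = {x | ∃ n, x ∈ c n} ∧
      ∀ n l, l <+: c n → (range l.length).map t = l := by
  have h3 : ∀ {m n}, m ≤ n → c m <+: c n := fun h => by
    induction h with
    | refl => exact prefix_rfl
    | step _ ih => exact ih.trans (h1 _)
  have h4 : ∀ n i (hi : i < (c n).length), (c (i + 1))[i]'(h2 _) = (c n)[i] := fun n i hi => by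
    rcases le_total n (i + 1) with h | h
    · exact ((h3 h).getElem hi).symm
    · exact (h3 h).getElem (h2 _)
  refine ⟨fun i => (c (i + 1))[i]'(h2 _), Set.ext fun x => ⟨?_, ?_⟩, fun n l hl => ?_⟩
  · rintro ⟨i, rfl⟩
    exact ⟨_, getElem_mem _⟩
  · rintro ⟨n, hn⟩
    obtain ⟨i, hi, rfl⟩ := getElem_of_mem hn
    exact ⟨i, h4 n i hi⟩
  · refine ext_getElem (by simp) fun i _ hi => ?_
    simp only [getElem_map, getElem_range]
    rw [h4 n i (hi.trans_le hl.length_le), hl.getElem hi]

theorem nolearn {W B : Type} [Countable W] (lang : B → Set W) (M : List W → B) (G : Set W → Prop)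
    (hM : ∀ L, G L → ∀ t : ℕ → W, Set.range t = L → ∃ β, lang β = L ∧
      ∃ N : ℕ, ∀ n ≥ N, M ((range n).map t) = β) {L : Set W} (hL : G L) (hne : L.Nonempty)
    (h : ∀ l : List W, (∀ x ∈ l, x ∈ L) → ∃ L', G L' ∧ L'.Nonempty ∧ (∀ x ∈ l, x ∈ L') ∧
      L' ⊆ L ∧ L' ≠ L) : False := by
  obtain ⟨l, hl, hlock⟩ : ∃ l : List W, (∀ x ∈ l, x ∈ L) ∧
      ∀ l' : List W, (∀ x ∈ l', x ∈ L) → M (l ++ l') = M l := by
    by_contra hn
    push Not at hn
    choose! f h1 h2 using hn
    obtain ⟨e, he⟩ := L.to_countable.exists_eq_range hne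
    let c : ℕ → List W := fun n => Nat.rec [] (fun n l => l ++ [e n] ++ f (l ++ [e n])) n
    have h3 : ∀ n, ∀ x ∈ c n ++ [e n], x ∈ L := fun n => by
      induction n with
      | zero => simp [c, he]
      | succ n ih =>
        intro x hx
        rcases mem_append.1 hx with hx | hx
        · exact (mem_append.1 hx).elim (ih x) (h1 _ ih x)
        · simp_all
    have h4 : ∀ n, n ≤ (c n).length := fun n => by
      induction n with
      | zero => simp
      | succ n ih =>
        change _ ≤ (c n ++ [e n] ++ f _).length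
        simp only [length_append, length_singleton]
        omega
    obtain ⟨t, h5, h6⟩ := chain c (fun n => ⟨[e n] ++ f (c n ++ [e n]), by simp [c]⟩) h4
    obtain ⟨β, -, N, hN⟩ := hM L hL t (h5.trans (Set.ext fun x => ⟨fun ⟨n, hn⟩ =>
      h3 n x (mem_append_left _ hn), fun hx => by
        obtain ⟨n, rfl⟩ := he ▸ hx
        exact ⟨n + 1, by simp [c]⟩⟩))
    have h7 := hN (c N ++ [e N]).length (by have := h4 N; simp; omega)
    have h8 := hN (c (N + 1)).length (by have := h4 (N + 1); omega)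
    rw [h6 (N + 1) _ (prefix_append _ _)] at h7
    rw [h6 (N + 1) _ prefix_rfl] at h8
    exact h2 _ (h3 N) (h8.trans h7.symm)
  have key : ∀ L', G L' → L'.Nonempty → (∀ x ∈ l, x ∈ L') → L' ⊆ L → lang (M l) = L' := by
    intro L' h1 h2 h3 h4
    obtain ⟨e, he⟩ := L'.to_countable.exists_eq_range h2
    obtain ⟨t, h5, h6⟩ := chain (fun n => l ++ (range n).map e)
      (fun n => ⟨[e n], by simp [range_succ]⟩) (by simp)
    obtain ⟨β, h7, N, hN⟩ := hM L' h1 t (h5.trans (Set.ext fun x => ⟨fun ⟨n, hn⟩ => by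
      rcases mem_append.1 hn with hn | hn
      · exact h3 x hn
      · obtain ⟨i, -, rfl⟩ := mem_map.1 hn
        exact he ▸ ⟨i, rfl⟩, fun hx => by
        obtain ⟨n, rfl⟩ := he ▸ hx
        exact ⟨n + 1, mem_append_right _ (mem_map_of_mem (by simp))⟩⟩))
    have h8 := hN (l ++ (range N).map e).length (by simp)
    rw [h6 N _ prefix_rfl, hlock _ fun x hx => by
      obtain ⟨i, -, rfl⟩ := mem_map.1 hx
      exact h4 (he ▸ ⟨i, rfl⟩)] at h8
    rw [h8, h7]
  obtain ⟨L', h1, h2, h3, h4, h5⟩ := h l hl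
  exact h5 ((key L' h1 h2 h3 h4).symm.trans (key L hL hne hl subset_rfl))

variable {S : Type}

def sub (σ : ℕ → List S) (α : List (ℕ ⊕ S)) : List S := α.flatMap (Sum.elim σ fun a => [a])

def mor (χ : ℕ → List (ℕ ⊕ S)) (α : List (ℕ ⊕ S)) : List (ℕ ⊕ S) :=
  α.flatMap (Sum.elim χ fun a => [.inr a])

def var (l : List ℕ) : List (ℕ ⊕ S) := l.map .inl

def lang (α : List (ℕ ⊕ S)) : Set (List S) := {w | ∃ σ, w = sub σ α}

theorem sub_mor (σ : ℕ → List S) (χ : ℕ → List (ℕ ⊕ S)) (α : List (ℕ ⊕ S)) :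
    sub σ (mor χ α) = sub (fun x => sub σ (χ x)) α := by
  simp only [sub, mor, flatMap_assoc]
  exact flatMap_congr fun x _ => by cases x <;> simp

theorem mor_mor (ψ χ : ℕ → List (ℕ ⊕ S)) (α : List (ℕ ⊕ S)) :
    mor ψ (mor χ α) = mor (fun x => mor ψ (χ x)) α := by
  simp only [mor, flatMap_assoc]
  exact flatMap_congr fun x _ => by cases x <;> simp

section
variable [DecidableEq S] (b c : S)

def stp (s : Option ℕ) (x : S) : Option ℕ :=
  if x = b then some 0 else if x = c then s.map (· + 1) else none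

def D (f : ℕ → List (ℕ ⊕ S)) : Option ℕ → List S → List (ℕ ⊕ S)
  | _, [] => []
  | s, x :: u => (if x = b then s.elim [] f else if x = c then [] else [.inr x]) ++
      D f (stp b c s x) u

def run : List S → ℕ
  | [] => 0
  | x :: u => if x = c then run u + 1 else 0

variable {b c} {f : ℕ → List (ℕ ⊕ S)}

theorem D_append : ∀ (u v : List S) (s : Option ℕ),
    D b c f s (u ++ v) = D b c f s u ++ D b c f (u.foldl (stp b c) s) v
  | [], _, _ => rfl
  | x :: u, v, s => by simp [D, D_append u v]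

theorem D_some (hbc : b ≠ c) : ∀ (u : List S) (m : ℕ), f (m + run c u) = [] →
    D b c f (some m) u = D b c f none u
  | [], _, _ => rfl
  | x :: u, m, h => by
    by_cases h1 : x = b
    · subst h1
      simp only [run, if_neg hbc, add_zero] at h
      simp [D, stp, h]
    · by_cases h2 : x = c
      · simp only [run, if_pos h2] at h
        simp [D, stp, h2, hbc.symm, D_some hbc u (m + 1) (by rw [← h]; congr 1; omega)]
      · simp [D, stp, h1, h2]

def em (j : ℕ) : ℕ → List (ℕ ⊕ S)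
  | 0 => []
  | m + 1 => if m.unpair.2 = j then [.inl m.unpair.1] else []

theorem D_pieces (hbc : b ≠ c) : ∀ (L : List (List S)) (s : Option ℕ), ∃ bad : List ℕ,
    bad.length = L.length ∧ ∀ j ∉ bad, D b c (em j) s L.flatten = L.flatMap (D b c (em j) none)
  | [], _ => ⟨[], rfl, fun _ _ => rfl⟩
  | u :: L, s => by
    obtain ⟨bad, h1, h2⟩ := D_pieces hbc L (u.foldl (stp b c) s)
    refine ⟨(s.getD 0 + run c u - 1).unpair.2 :: bad, by simp [h1], fun j hj => ?_⟩
    simp only [mem_cons, not_or] at hj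
    rw [flatten_cons, D_append, h2 j hj.2, flatMap_cons]
    congr 1
    rcases s with _ | m
    · rfl
    · refine D_some hbc u m ?_
      have := hj.1
      simp only [Option.getD_some] at this
      generalize m + run c u = r at this
      rcases r with _ | r
      · rfl
      · exact if_neg fun h => this (by simp [h])

def cod (b c : S) (K x : ℕ) : List S :=
  (range K).flatMap fun i => b :: (replicate (Nat.pair x i + 1) c ++ [b])

theorem D_rep (hbc : b ≠ c) (v : List S) : ∀ r m,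
    D b c f (some m) (replicate r c ++ b :: v) = f (m + r) ++ D b c f (some 0) v
  | 0, m => by simp [D, stp]
  | r + 1, m => by
    simp [replicate_succ, D, stp, hbc.symm, D_rep hbc v r, add_assoc, add_comm 1 r]

theorem D_cod (hbc : b ≠ c) (j x : ℕ) : ∀ (K : ℕ) (v : List S) (s : Option ℕ),
    s.getD 0 = 0 → ∃ s' : Option ℕ, s'.getD 0 = 0 ∧ D b c (em j) s (cod b c K x ++ v) =
      (if j < K then [.inl x] else []) ++ D b c (em j) s' v
  | 0, v, s, h => ⟨s, h, by simp [cod]⟩
  | K + 1, v, s, h => by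
    obtain ⟨s', h1, h2⟩ := D_cod hbc j x K (b :: (replicate (Nat.pair x K + 1) c ++ b :: v)) s h
    refine ⟨some 0, rfl, ?_⟩
    have h3 : cod b c (K + 1) x ++ v =
        cod b c K x ++ b :: (replicate (Nat.pair x K + 1) c ++ b :: v) := by
      simp [cod, range_succ]
    have h4 : s'.elim [] (em (S := S) j) = [] := by
      rcases s' with _ | m
      · rfl
      · obtain rfl : m = 0 := h1
        rfl
    rw [h3, h2, D, if_pos rfl, h4, stp, if_pos rfl, D_rep hbc, zero_add, em]
    simp only [Nat.unpair_pair]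
    split_ifs <;> first | omega | simp

theorem D_sub (hbc : b ≠ c) {j K : ℕ} (hj : j < K) : ∀ (α : List (ℕ ⊕ S)) (s : Option ℕ),
    .inr b ∉ α → .inr c ∉ α → s.getD 0 = 0 → D b c (em j) s (sub (cod b c K) α) = α
  | [], _, _, _, _ => rfl
  | .inl x :: α, s, h1, h2, h => by
    obtain ⟨s', h3, h4⟩ := D_cod hbc j x K (sub (cod b c K) α) s h
    have := D_sub hbc hj α s' (fun h => h1 (mem_cons_of_mem _ h))
      (fun h => h2 (mem_cons_of_mem _ h)) h3
    rw [this, if_pos hj] at h4
    exact h4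
  | .inr a :: α, s, h1, h2, h => by
    simp only [mem_cons, Sum.inr.injEq, not_or] at h1 h2
    have := D_sub hbc hj α none h1.2 h2.2 rfl
    change D b c (em j) s (a :: sub (cod b c K) α) = _
    simp [D, stp, Ne.symm h1.1, Ne.symm h2.1, this]

theorem exists_mor (hbc : b ≠ c) {α β : List (ℕ ⊕ S)} (h1 : .inr b ∉ α) (h2 : .inr c ∉ α)
    (h3 : .inr b ∉ β) (h4 : .inr c ∉ β) (h : lang α ⊆ lang β) : ∃ ψ, mor ψ β = α := by
  obtain ⟨τ, hτ⟩ := h ⟨cod b c (β.length + 1), rfl⟩
  obtain ⟨bad, h5, h6⟩ := D_pieces hbc (β.map (Sum.elim τ fun a => [a])) none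
  obtain ⟨j, hj, hb⟩ : ∃ j ∈ Finset.range (β.length + 1), j ∉ bad.toFinset :=
    Finset.exists_mem_notMem_of_card_lt_card ((toFinset_card_le _).trans_lt (by simp [h5]))
  refine ⟨fun v => D b c (em j) none (τ v), ?_⟩
  rw [← D_sub hbc (Finset.mem_range.1 hj) α none h1 h2 rfl, hτ, sub, flatMap_def,
    h6 j (by simpa using hb), flatMap_map, mor]
  refine flatMap_congr fun x hx => ?_
  rcases x with x | a
  · rfl
  · have h7 : a ≠ b := fun h => h3 (h ▸ hx)
    have h8 : a ≠ c := fun h => h4 (h ▸ hx)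
    simp [D, h7, h8]

end

end Pool.Agent.H.MP_d6d0a6_lc
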