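import Pool.Agent.H.MP_d6d0a6_lc.A

namespace Pool.Agent.H.MP_d6d0a6_lc

open List

variable {S : Type}

def V (c i : ℕ) : ℕ := 8 * i + c + 4

def Y : List ℕ := [0, 0, 1, 1, 2, 2]

def blk (i : ℕ) : List (List ℕ) := [[V 0 i], V 2 i :: V 3 i :: Y, [V 1 i], V 2 i :: V 4 i :: Y,
  V 5 i :: V 3 i :: (Y ++ Y ++ V 7 i :: Y ++ V 7 (i + 1) :: [V 6 i])]

def pat (l : List (List ℕ × S)) : List (ℕ ⊕ S) := l.flatMap fun p => var p.1 ++ [.inr p.2]

def gad (a : ℕ → S) (i : ℕ) : List (List ℕ × S) := (blk i).map fun p => (p, a i)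

def bl (a : ℕ → S) (k : ℕ) : List (List ℕ × S) :=
  (range k).flatMap (gad a) ++ [(Y ++ [V 7 k], a 0), ([3, V 7 0], a 0)]

def al (a : ℕ → S) (k : ℕ) : List (ℕ ⊕ S) := pat (bl a k)

theorem cut : ∀ {p q : List ℕ} {a b : S} {r s : List (ℕ ⊕ S)},
    var p ++ .inr a :: r = var q ++ .inr b :: s → p = q ∧ r = s
  | [], [], _, _, _, _, h => ⟨rfl, (cons.inj h).2⟩
  | [], _ :: _, _, _, _, _, h => by simp [var] at h
  | _ :: _, [], _, _, _, _, h => by simp [var] at h
  | _ :: _, _ :: _, _, _, _, _, h => by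
    simp only [var, map_cons, cons_append, cons.injEq, Sum.inl.injEq] at h
    exact ⟨congrArg₂ _ h.1 (cut h.2).1, (cut h.2).2⟩

theorem split (χ : ℕ → List ℕ) : ∀ l : List (List ℕ × S),
    mor (fun x => var (χ x)) (pat l) = pat l → ∀ p ∈ l, p.1.flatMap χ = p.1
  | [], _ => by simp
  | p :: l, h => by
    have h1 : mor (fun x => var (χ x)) (pat (p :: l)) =
        var (p.1.flatMap χ) ++ .inr p.2 :: mor (fun x => var (χ x)) (pat l) := by
      simp [mor, pat, var, flatMap_map, map_flatMap]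
    have h2 : pat (p :: l) = var p.1 ++ .inr p.2 :: pat l := by simp [pat]
    have h3 := cut (h1.symm.trans (h.trans h2))
    simpa using ⟨h3.1, by simpa using split χ l h3.2⟩

theorem cnt (χ : ℕ → List (ℕ ⊕ S)) : ∀ α : List (ℕ ⊕ S),
    α.countP Sum.isRight ≤ (mor χ α).countP Sum.isRight ∧ ∀ x, .inl x ∈ α → ∀ a, .inr a ∈ χ x →
      α.countP Sum.isRight < (mor χ α).countP Sum.isRight
  | [] => by simp
  | y :: α => by
    obtain ⟨h1, h2⟩ := cnt χ α
    have h3 : mor χ (y :: α) = Sum.elim χ (fun a => [.inr a]) y ++ mor χ α := rfl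
    rw [h3, countP_append]
    rcases y with y | b
    · refine ⟨by simp; omega, fun x hx a ha => ?_⟩
      rcases mem_cons.1 hx with hx | hx
      · cases hx
        have : 0 < (χ y).countP Sum.isRight := countP_pos_iff.2 ⟨_, ha, rfl⟩
        simp; omega
      · have := h2 x hx a ha
        simp; omega
    · refine ⟨by simp; omega, fun x hx a ha => ?_⟩
      have := h2 x (by simpa using hx) a ha
      simp; omega

theorem uniq {z : ℕ} {l1 l2 m1 m2 : List ℕ} (h : l1 ++ z :: l2 = m1 ++ z :: m2) (h1 : z ∉ m1)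
    (h2 : z ∉ m2) : l1 = m1 ∧ l2 = m2 := by
  have := (append_cons_inj_of_notMem h1 h2).1 h.symm
  exact ⟨this.1.symm, this.2.2.symm⟩

theorem rigid0 {k : ℕ} (hk : 0 < k) (χ : ℕ → List ℕ) (h : ∀ i < k, ∀ p ∈ blk i, p.flatMap χ = p)
    (hE : (Y ++ [V 7 k]).flatMap χ = Y ++ [V 7 k]) (hS : [3, V 7 0].flatMap χ = [3, V 7 0]) :
    (∀ x ∈ Y, χ x = [x]) ∧ χ 3 = [3] ∧ (∀ i ≤ k, χ (V 7 i) = [V 7 i]) ∧
      ∀ i < k, ∀ c < 7, χ (V c i) = [V c i] := by
  simp only [blk, forall_mem_cons, not_mem_nil, IsEmpty.forall_iff, implies_true, and_true,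
    flatMap_cons, flatMap_append, flatMap_nil, append_nil] at h hE hS
  generalize hZ : Y.flatMap χ = Z at h hE
  obtain ⟨P, hP, hP'⟩ : ∃ P, P ++ Z = Y ∧ Z ++ P = Y := by
    have h1 : Z <+: Y ++ [V 7 k] := ⟨_, hE⟩
    have h2 : Z <:+ V 2 0 :: V 3 0 :: Y := ⟨_, (append_assoc _ _ _).trans (h 0 hk).2.1⟩
    have h3 : Z = [] ∨ Z = Y := by
      simp only [Y, cons_append, nil_append, prefix_cons_iff, prefix_nil, suffix_cons_iff,
        suffix_nil, V] at h1 h2
      rcases h2 with rfl | rfl | rfl | rfl | rfl | rfl | rfl | rfl | rfl <;> simp_all [Y]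
    rcases h3 with rfl | rfl
    exacts [⟨Y, by simp⟩, ⟨[], by simp⟩]
  have hs : ∀ i < k, χ (V 2 i) = [V 2 i] ∧ χ (V 3 i) = V 3 i :: P ∧ χ (V 4 i) = V 4 i :: P := by
    intro i hi
    obtain ⟨-, h1, -, h2, h3⟩ := h i hi
    have h4 : χ (V 2 i) = [V 2 i] := by
      rcases h4 : χ (V 2 i) with _ | ⟨u, _ | ⟨v, l⟩⟩ <;> rw [h4] at h1 h2
      · rw [← hP, nil_append, ← cons_append, ← cons_append, append_left_inj] at h1
        have : V 2 i ∈ χ (V 5 i) ++ (χ (V 3 i) ++ (Z ++ Z ++ (χ (V 7 i) ++ Z) ++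
          (χ (V 7 (i + 1)) ++ χ (V 6 i)))) := by simp [h1]
        rw [h3] at this
        simp [Y, V] at this
        omega
      · rw [(cons.inj h1).1]
      · simp only [cons_append, cons.injEq, V] at h1 h2
        omega
    rw [h4, ← hP] at h1 h2
    exact ⟨h4, append_cancel_right (bs := Z) (cons.inj h1).2,
      append_cancel_right (bs := Z) (cons.inj h2).2⟩
  have hg : ∀ i < k, χ (V 7 (i + 1)) = P ++ [V 7 (i + 1)] → χ (V 5 i) = [V 5 i] ∧
      χ (V 7 i) = P ++ [V 7 i] ∧ χ (V 6 i) = [V 6 i] := by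
    intro i hi h1
    have h2 := (h i hi).2.2.2.2
    rw [(hs i hi).2.1, h1] at h2
    obtain ⟨h3, h4⟩ := uniq (m1 := [V 5 i]) h2 (by simp [V]) (by simp [V, Y]; omega)
    have h5 : P ++ (Z ++ Z ++ (χ (V 7 i) ++ Z) ++ (P ++ [V 7 (i + 1)] ++ χ (V 6 i))) =
        ((P ++ Z) ++ (Z ++ χ (V 7 i)) ++ (Z ++ P)) ++ V 7 (i + 1) :: χ (V 6 i) := by simp
    replace h4 := h5.symm.trans h4
    rw [hP, hP'] at h4
    obtain ⟨h6, h7⟩ := uniq h4 (by simp [V, Y]) (by simp [V]; omega)
    refine ⟨h3, ?_, h7⟩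
    have h8 : Y ++ Y ++ V 7 i :: Y = Y ++ (Z ++ (P ++ [V 7 i])) ++ Y := by
      rw [← append_assoc Z, hP']; simp
    rw [h8] at h6
    exact append_cancel_left (append_cancel_left (append_cancel_right h6))
  have h1 : ∀ j ≤ k, χ (V 7 (k - j)) = P ++ [V 7 (k - j)] := fun j => by
    induction j with
    | zero => rw [← hP', append_assoc] at hE; simpa using hE
    | succ j ih =>
      intro hj
      refine (hg _ (by omega) ?_).2.1
      rw [show k - (j + 1) + 1 = k - j by omega]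
      exact ih (by omega)
  have h2 : ∀ i ≤ k, χ (V 7 i) = P ++ [V 7 i] := fun i hi => by
    simpa [Nat.sub_sub_self hi] using h1 (k - i) (by omega)
  obtain rfl : P = [] := by
    rw [h2 0 hk.le] at hS
    rcases P with _ | ⟨u, P⟩
    · rfl
    · have h3 : u ∈ χ 3 ++ (u :: P ++ [V 7 0]) := by simp
      rw [hS] at h3
      obtain rfl : u = 0 := (cons.inj hP).1
      simp [V] at h3
  obtain rfl : Z = Y := hP
  refine ⟨?_, ?_, h2, fun i hi c hc => ?_⟩
  · simp only [Y, flatMap_cons, flatMap_nil, append_nil] at hZ ⊢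
    have h3 := congrArg length hZ
    simp only [length_append, length_cons, length_nil] at h3
    rcases h4 : χ 0 with _ | ⟨_, _ | ⟨_, _ | ⟨_, _ | _⟩⟩⟩ <;>
    rcases h5 : χ 1 with _ | ⟨_, _ | ⟨_, _ | ⟨_, _ | _⟩⟩⟩ <;>
    rcases h6 : χ 2 with _ | ⟨_, _ | ⟨_, _ | ⟨_, _ | _⟩⟩⟩ <;>
    simp only [h4, h5, h6, length_cons, length_nil] at h3 hZ <;> (try omega) <;>
    simp only [nil_append, cons_append, cons.injEq] at hZ <;> first | omega | simp_all
  · rw [h2 0 hk.le] at hS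
    exact append_cancel_right (bs := [V 7 0]) hS
  · have h3 := hs i hi
    have h4 := hg i hi (h2 _ hi)
    have h5 := h i hi
    interval_cases c
    exacts [h5.1, h5.2.2.1, h3.1, h3.2.1, h3.2.2, h4.1, h4.2.2]

theorem rigid (a : ℕ → S) {k : ℕ} (hk : 0 < k) (χ : ℕ → List (ℕ ⊕ S))
    (h : mor χ (al a k) = al a k) : ∀ x, .inl x ∈ al a k → χ x = [.inl x] := by
  have h1 : ∀ x, .inl x ∈ al a k → χ x = var ((χ x).filterMap Sum.getLeft?) := fun x hx => by
    have := fun b hb => ((cnt χ _).2 x hx b hb).ne (by rw [h])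
    generalize χ x = l at this
    induction l with
    | nil => rfl
    | cons y l ih =>
      rcases y with y | b
      · exact congrArg _ (ih fun b hb => this b (mem_cons_of_mem _ hb))
      · exact (this b (by simp)).elim
  have h2 := split (fun x => (χ x).filterMap Sum.getLeft?) (bl a k) (Eq.trans (flatMap_congr
    fun y hy => by rcases y with y | b; exacts [(h1 y hy).symm, rfl]) h)
  obtain ⟨h3, h4, h5, h6⟩ := rigid0 hk _ (fun i hi p hp => h2 (p, a i) (mem_append_left _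
    (mem_flatMap.2 ⟨i, mem_range.2 hi, mem_map_of_mem hp⟩))) (h2 (_, a 0) (by simp [bl]))
    (h2 (_, a 0) (by simp [bl]))
  intro x hx
  rw [h1 x hx]
  suffices (χ x).filterMap Sum.getLeft? = [x] by rw [this]; rfl
  obtain ⟨p, hp, hx⟩ := mem_flatMap.1 hx
  have h7 : x ∈ p.1 := by simpa [var] using hx
  rcases mem_append.1 hp with hp | hp
  · obtain ⟨i, hi, hp⟩ := mem_flatMap.1 hp
    obtain ⟨q, hq, rfl⟩ := mem_map.1 hp
    have hi := mem_range.1 hi
    have h8 : x ∈ Y ∨ x = V 7 i ∨ x = V 7 (i + 1) ∨ ∃ c < 7, x = V c i := by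
      simp only [blk, mem_cons, not_mem_nil, or_false] at hq
      rcases hq with rfl | rfl | rfl | rfl | rfl <;>
        simp only [mem_cons, mem_append, not_mem_nil, or_false] at h7 <;> grind
    rcases h8 with h8 | rfl | rfl | ⟨c, hc, rfl⟩
    exacts [h3 x h8, h5 _ hi.le, h5 _ hi, h6 i hi c hc]
  · simp only [mem_cons, not_mem_nil, or_false] at hp
    rcases hp with rfl | rfl <;> simp only [mem_cons, mem_append, not_mem_nil, or_false] at h7 <;>
      rcases h7 with h7 | rfl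
    exacts [h3 x h7, h5 _ le_rfl, h7 ▸ h4, h5 _ hk.le]

theorem prim (a : ℕ → S) {k : ℕ} (hk : 0 < k) (φ ψ : ℕ → List (ℕ ⊕ S))
    (h : mor ψ (mor φ (al a k)) = al a k) : (al a k).length ≤ (mor φ (al a k)).length := by
  have h1 := rigid a hk _ ((mor_mor _ _ _).symm.trans h)
  generalize al a k = α at h1
  induction α with
  | nil => simp
  | cons y α ih =>
    have := ih fun x hx => h1 x (mem_cons_of_mem _ hx)
    have h3 : mor φ (y :: α) = Sum.elim φ (fun a => [.inr a]) y ++ mor φ α := rfl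
    rw [h3, length_append, length_cons]
    rcases y with y | b
    · have : φ y ≠ [] := fun h => by simpa [h, mor] using h1 y (by simp)
      have := length_pos_iff.2 this
      simp only [Sum.elim_inl]
      omega
    · simp only [Sum.elim_inr, length_singleton]
      omega

end Pool.Agent.H.MP_d6d0a6_lc
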