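import Pool.Agent.H.MP_d6d0a6_lc.B

namespace Pool.Agent.H.MP_d6d0a6_lc

open List

variable {S : Type}

def dec {T : Type} (f : ℕ → ℕ → T) (g : ℕ → T) (x : ℕ) : T :=
  if x < 4 then g x else f ((x - 4) % 8) ((x - 4) / 8)

theorem dec_V {T : Type} (f : ℕ → ℕ → T) (g : ℕ → T) {c : ℕ} (i : ℕ) (h : c < 8) :
    dec f g (V c i) = f c i := by
  rw [dec, if_neg (by simp [V])]
  congr 1 <;> simp only [V] <;> omega

theorem sub_pat (σ : ℕ → List S) (l : List (List ℕ × S)) :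
    sub σ (pat l) = l.flatMap fun p => p.1.flatMap σ ++ [p.2] := by
  simp [sub, pat, var, flatMap_assoc, flatMap_map]

theorem sub_append (σ : ℕ → List S) (α β : List (ℕ ⊕ S)) :
    sub σ (α ++ β) = sub σ α ++ sub σ β := flatMap_append

theorem pat_append (l m : List (List ℕ × S)) : pat (l ++ m) = pat l ++ pat m := flatMap_append

theorem sub_gads {σ τ : ℕ → List S} {a : ℕ → S} {l : List ℕ}
    (h : ∀ j ∈ l, sub τ (pat (gad a j)) = sub σ (pat (gad a j))) :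
    sub τ (pat (l.flatMap (gad a))) = sub σ (pat (l.flatMap (gad a))) := by
  induction l with
  | nil => rfl
  | cons j l ih =>
    simp only [flatMap_cons, pat_append, sub_append, h j (by simp),
      ih fun j hj => h j (mem_cons_of_mem _ hj)]

def ct (σ : ℕ → List S) (i : ℕ) (u : List S) (A : S) (v : List S) : ℕ → List S :=
  dec (fun c j => match c with
    | 0 => if j = i then σ (V 0 j) ++ A :: (σ (V 2 j) ++ σ (V 3 j) ++ u) else σ (V 0 j)
    | 1 => if j = i then σ (V 1 j) ++ A :: (σ (V 2 j) ++ σ (V 4 j) ++ u) else σ (V 1 j)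
    | 2 => if j = i then v else σ (V 2 j)
    | 3 => if j = i then [] else σ (V 3 j) ++ (u ++ A :: v)
    | 4 => if j = i then [] else σ (V 4 j) ++ (u ++ A :: v)
    | 5 => if j = i then σ (V 5 j) ++ σ (V 3 j) ++ (u ++ A :: v) ++ (u ++ A :: v) ++ σ (V 7 j)
        else σ (V 5 j)
    | 6 => if j < i then (u ++ A :: v) ++ σ (V 7 j) ++ (u ++ A :: v) ++ σ (V 7 (j + 1)) ++ σ (V 6 j)
        else σ (V 6 j)
    | _ => if j ≤ i then [] else (u ++ A :: v) ++ σ (V 7 j))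
    fun x => if x = 3 then σ 3 ++ σ (V 7 0) else []

theorem ct_Y (σ : ℕ → List S) (i : ℕ) (u : List S) (A : S) (v : List S) :
    Y.flatMap (ct σ i u A v) = [] := by simp [Y, ct, dec]

theorem ct_gad {σ : ℕ → List S} {a : ℕ → S} {i : ℕ} {u v : List S}
    (h : Y.flatMap σ = u ++ a i :: v) (j : ℕ) :
    sub (ct σ i u (a i) v) (pat (gad a j)) = sub σ (pat (gad a j)) := by
  simp only [sub_pat, gad, blk, map_cons, map_nil, flatMap_cons, flatMap_nil, flatMap_append, ct_Y,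
    h]
  rcases lt_trichotomy j i with hj | rfl | hj
  · simp [ct, dec_V, hj, hj.ne, hj.le, Nat.succ_le_of_lt hj]
  · simp [ct, dec_V]
  · simp [ct, dec_V, hj.ne', hj.not_gt, hj.not_ge, (Nat.lt_succ_of_lt hj).not_ge]

theorem ct_al {σ : ℕ → List S} {a : ℕ → S} {i k : ℕ} (hi : i < k) {u v : List S}
    (h : Y.flatMap σ = u ++ a i :: v) : sub (ct σ i u (a i) v) (al a k) = sub σ (al a k) := by
  rw [al, bl, pat_append, sub_append, sub_append, sub_gads fun j _ => ct_gad h j]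
  simp only [sub_pat, flatMap_cons, flatMap_nil, flatMap_append, ct_Y, h]
  have : ct σ i u (a i) v 3 = σ 3 ++ σ (V 7 0) := by simp [ct, dec]
  rw [this]
  simp [ct, dec_V, hi.not_ge]

theorem comm {d : S} {u v : List S} (hu : ∀ x ∈ u, x = d) (hv : ∀ x ∈ v, x = d) :
    u ++ v = v ++ u := by
  rw [eq_replicate_of_mem hu, eq_replicate_of_mem hv, ← replicate_add, ← replicate_add, add_comm]

theorem amb {a : ℕ → S} {k : ℕ} {b c : S} (hS : ∀ x, x = b ∨ x = c ∨ ∃ i < k, x = a i)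
    (σ : ℕ → List S) {A : S} (h2 : A ∈ σ 2) (h0 : A ∉ σ 0) (h1 : A ∉ σ 1) :
    ∃ τ, sub τ (al a k) = sub σ (al a k) ∧ τ 2 = [] := by
  by_cases h : ∃ i < k, a i ∈ Y.flatMap σ
  · obtain ⟨i, hi, h⟩ := h
    obtain ⟨u, v, h⟩ := append_of_mem h
    exact ⟨_, ct_al hi h, by simp [ct, dec]⟩
  have h3 : ∀ x ∈ Y.flatMap σ, x = b ∨ x = c := fun x hx => by
    rcases hS x with h3 | h3 | ⟨i, hi, rfl⟩
    exacts [.inl h3, .inr h3, (h ⟨i, hi, hx⟩).elim]
  obtain ⟨d, hd⟩ : ∃ d, ∀ x ∈ Y.flatMap σ, x ≠ A → x = d := by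
    rcases h3 A (by simp [Y, h2]) with rfl | rfl
    exacts [⟨c, fun x hx => (h3 x hx).resolve_left⟩, ⟨b, fun x hx => (h3 x hx).resolve_right⟩]
  have h4 : σ 0 ++ σ 1 = σ 1 ++ σ 0 := comm
    (fun x hx => hd x (by simp [Y, hx]) (by rintro rfl; exact h0 hx))
    fun x hx => hd x (by simp [Y, hx]) (by rintro rfl; exact h1 hx)
  let τ : ℕ → List S := dec (fun c j => σ (V c j)) fun x => [σ 0 ++ σ 1, σ 2, [], σ 3].getD x []
  have h5 : Y.flatMap τ = Y.flatMap σ := by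
    simp only [Y, flatMap_cons, flatMap_nil, τ, dec]
    simp [← append_assoc (σ 1) (σ 0), ← h4]
  refine ⟨τ, ?_, by simp [τ, dec]⟩
  rw [al, bl, pat_append, sub_append, sub_append, sub_gads (σ := σ) fun j _ => ?_]
  · have : τ 3 = σ 3 := by simp [τ, dec]
    simp only [sub_pat, flatMap_cons, flatMap_nil, flatMap_append, h5, this]
    simp [τ, dec_V]
  · simp only [sub_pat, gad, blk, map_cons, map_nil, flatMap_cons, flatMap_nil, flatMap_append, h5]
    simp [τ, dec_V]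

theorem inr_al {a : ℕ → S} {k : ℕ} (hk : 0 < k) {x : S} (h : .inr x ∈ al a k) :
    ∃ i < k, x = a i := by
  simp only [al, pat, bl, gad, var, mem_flatMap, mem_append, mem_map, mem_range] at h
  obtain ⟨p, hp, h⟩ := h
  obtain rfl : x = p.2 := by simpa using h
  rcases hp with ⟨i, hi, q, -, rfl⟩ | hp
  · exact ⟨i, hi, rfl⟩
  · simp only [mem_cons, not_mem_nil, or_false] at hp
    rcases hp with rfl | rfl <;> exact ⟨0, hk, rfl⟩

theorem y_al (a : ℕ → S) (k : ℕ) : ∀ x ∈ Y, .inl x ∈ al a k := by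
  simp [al, pat, bl, var, Y]

theorem notell {n k : ℕ} (hk : 0 < k) {a : ℕ → Fin n} {b c : Fin n} (hbc : b ≠ c)
    (hS : ∀ x, x = b ∨ x = c ∨ ∃ i < k, x = a i) (ha : ∀ i < k, a i ≠ b ∧ a i ≠ c)
    (l : List (List (Fin n))) (hl : ∀ w ∈ l, w ∈ lang (al a k)) : ∃ β : List (ℕ ⊕ Fin n),
      β ≠ [] ∧ .inr b ∉ β ∧ .inr c ∉ β ∧ (∀ w ∈ l, w ∈ lang β) ∧ lang β ⊆ lang (al a k) ∧
        lang β ≠ lang (al a k) := by
  have h1 : ∀ j : ℕ, ∃ σ : ℕ → List (Fin n), (∀ w ∈ l[j]?, w = sub σ (al a k)) ∧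
      ∀ A ∈ σ 2, A ∈ σ 0 ∨ A ∈ σ 1 := fun j => by
    rcases h : l[j]? with _ | w
    · exact ⟨fun _ => [], by simp⟩
    · obtain ⟨σ, rfl⟩ := hl w (mem_of_getElem? h)
      by_cases h2 : ∀ A ∈ σ 2, A ∈ σ 0 ∨ A ∈ σ 1
      · exact ⟨σ, by simp, h2⟩
      · push Not at h2
        obtain ⟨A, h3, h4, h5⟩ := h2
        obtain ⟨τ, h6, h7⟩ := amb hS σ h3 h4 h5
        exact ⟨τ, by simp [h6], by simp [h7]⟩
  choose σ h1 h2 using h1
  let φ : ℕ → List (ℕ ⊕ Fin n) := fun x =>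
    (range l.length).flatMap fun j => (σ j x).map fun A : Fin n => .inl (Nat.pair j A)
  have h3 : ∀ x, .inr x ∈ mor φ (al a k) → .inr x ∈ al a k := fun x hx => by
    obtain ⟨y | y, h3, h4⟩ := mem_flatMap.1 hx
    · simp [φ] at h4
    · obtain rfl : x = y := by simpa using h4
      exact h3
  have h4 : .inr b ∉ al a k ∧ .inr c ∉ al a k := by
    constructor <;> intro h <;> obtain ⟨i, hi, h⟩ := inr_al hk h
    exacts [(ha i hi).1 h.symm, (ha i hi).2 h.symm]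
  refine ⟨mor φ (al a k), by simp [mor, al, pat, bl], fun h => h4.1 (h3 _ h),
    fun h => h4.2 (h3 _ h), fun w hw => ?_, ?_, fun h => ?_⟩
  · obtain ⟨j, hj, rfl⟩ := getElem_of_mem hw
    refine ⟨fun v => if h : v.unpair.1 = j ∧ v.unpair.2 < n then [⟨_, h.2⟩] else [], ?_⟩
    rw [sub_mor, h1 j _ (getElem?_eq_getElem hj)]
    congr 1
    funext x
    have : ∀ m, (range m).flatMap (fun i => if i = j then σ j x else []) =
        if j < m then σ j x else [] := fun m => by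
      induction m with
      | zero => simp
      | succ m ih =>
        simp only [range_succ, flatMap_append, ih, flatMap_singleton]
        split_ifs <;> first | omega | simp
    rw [← if_pos (t := σ j x) (e := []) hj, ← this]
    simp only [sub, φ, flatMap_assoc, flatMap_map, Sum.elim_inl, Nat.unpair_pair, Fin.is_lt,
      and_true]
    refine flatMap_congr fun i _ => ?_
    split_ifs with h
    · simp [h]
    · simp
  · rintro _ ⟨τ, rfl⟩
    exact ⟨_, sub_mor _ _ _⟩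
  · obtain ⟨ψ, h5⟩ := exists_mor hbc h4.1 h4.2 (fun h => h4.1 (h3 _ h)) (fun h => h4.2 (h3 _ h))
      h.ge
    have h6 := fun x hx => rigid a hk _ ((mor_mor _ _ _).symm.trans h5) x (y_al a k x hx)
    have h7 : ∀ x, .inl 2 ∈ mor ψ (φ x) ↔
        ∃ j < l.length, ∃ A ∈ σ j x, .inl 2 ∈ ψ (Nat.pair j A) := fun x => by
      simp [mor, φ, flatMap_assoc, flatMap_map]
    obtain ⟨j, hj, A, h8, h9⟩ := (h7 2).1 (by simp [h6 2 (by simp [Y])])
    rcases h2 j A h8 with h | h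
    · simpa [h6 0 (by simp [Y])] using (h7 0).2 ⟨j, hj, A, h, h9⟩
    · simpa [h6 1 (by simp [Y])] using (h7 1).2 ⟨j, hj, A, h, h9⟩

theorem letters {n : ℕ} (hn : 3 ≤ n) : ∃ (a : ℕ → Fin n) (b c : Fin n), b ≠ c ∧
    (∀ x, x = b ∨ x = c ∨ ∃ i < n - 2, x = a i) ∧ ∀ i < n - 2, a i ≠ b ∧ a i ≠ c := by
  refine ⟨fun i => ⟨min (i + 2) (n - 1), by omega⟩, ⟨0, by omega⟩, ⟨1, by omega⟩, by simp,
    fun x => ?_, fun i hi => ?_⟩
  · simp only [Fin.ext_iff]
    by_cases h : x.1 < 2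
    · omega
    · exact .inr (.inr ⟨x - 2, by omega, by omega⟩)
  · simp only [ne_eq, Fin.mk.injEq]
    omega

theorem main {n : ℕ} (hn : 3 ≤ n) (M : List (List (Fin n)) → List (ℕ ⊕ Fin n))
    (h : ∀ α : List (ℕ ⊕ Fin n), α ≠ [] → (∃ a b : Fin n, a ≠ b ∧ .inr a ∉ α ∧ .inr b ∉ α) →
      ∀ t : ℕ → List (Fin n), Set.range t = lang α →
        ∃ β, lang β = lang α ∧ ∃ N : ℕ, ∀ m ≥ N, M ((range m).map t) = β) : False := by
  obtain ⟨a, b, c, h1, h2, h3⟩ := letters hn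
  have hk : 0 < n - 2 := by omega
  refine nolearn lang M (fun L => ∃ α : List (ℕ ⊕ Fin n), α ≠ [] ∧ .inr b ∉ α ∧ .inr c ∉ α ∧
    L = lang α) ?_ (L := lang (al a (n - 2))) ⟨_, by simp [al, pat, bl], ?_, ?_, rfl⟩
    ⟨_, fun _ => [], rfl⟩ fun l hl => ?_
  · rintro _ ⟨α, h4, h5, h6, rfl⟩
    exact h α h4 ⟨b, c, h1, h5, h6⟩
  · exact fun h => (inr_al hk h).elim fun i hi => (h3 i hi.1).1 hi.2.symm
  · exact fun h => (inr_al hk h).elim fun i hi => (h3 i hi.1).2 hi.2.symm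
  · obtain ⟨β, h4, h5, h6, h7, h8, h9⟩ := notell hk h1 h2 h3 l hl
    exact ⟨_, ⟨β, h4, h5, h6, rfl⟩, ⟨_, fun _ => [], rfl⟩, h7, h8, h9⟩

end Pool.Agent.H.MP_d6d0a6_lc
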